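import Pool.Agent.P.MP_80096b_al.Formula

namespace Pool.Agent.Results.MP_80096b_al.LimitFormula

open Pool.Agent.P.MP_80096b_al

/-- The limit of the Jack-Laurent symmetric function of `(lam, mu)` exists and equals
`exp (Δ / k) (A * B)`, where `A` and `B` belong to the bipartitions `(lam, ∅)` and `(∅, mu)`. -/
theorem result (k : ℂ) (hk : ∀ q : ℚ, k ≠ (q : ℂ)) (lam mu : YoungDiagram) :
    ∃ (P : MvPolynomial Idx (RatFunc ℂ)) (A B : MvPolynomial Idx ℂ),
      IsJackLaurent k lam mu P ∧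
      (∀ P' : MvPolynomial Idx (RatFunc ℂ), IsJackLaurent k lam mu P' → P' = P) ∧
      IsJackLaurent k lam ⊥ (MvPolynomial.map (algebraMap ℂ (RatFunc ℂ)) A) ∧
      IsJackLaurent k ⊥ mu (MvPolynomial.map (algebraMap ℂ (RatFunc ℂ)) B) ∧
      ∀ m : Idx →₀ ℕ,
        Filter.Tendsto (fun t : ℂ => RatFunc.eval (RingHom.id ℂ) t (MvPolynomial.coeff m P))
          (Bornology.cobounded ℂ) (nhds (MvPolynomial.coeff m (wick k (A * B)))) := by
  obtain ⟨P, hP⟩ := exists_jackLaurent hk lam mu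
  obtain ⟨A, B, h1, h2, h3⟩ := limit_formula hk hP
  exact ⟨P, A, B, hP, fun P' hP' => jackLaurent_unique hk hP hP', h1, h2, h3.1⟩

end Pool.Agent.Results.MP_80096b_al.LimitFormula
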